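import Mathlib
import Pool.Agent.Y666.SP.Stm2

/-!
# Project SP, part 2: gluing the spines of the pieces (helper433, adapted from helper362)
-/

set_option autoImplicit false

namespace Pool.Agent.Y433.SP

open Pool.Agent.Y666.SP Cardinal

section same

variable {α : Type} [PartialOrder α] {κ : Cardinal.{0}} {E : Set α} {G : Set (KGerm κ E)}
  {x y z : α}

theorem ksame_refl (x : α) : KSame G x x := fun _ _ => Iff.rfl

theorem ksame_symm (h : KSame G x y) : KSame G y x := fun g hg => (h g hg).symm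

theorem ksame_trans (h : KSame G x y) (h' : KSame G y z) : KSame G x z :=
  fun g hg => (h g hg).trans (h' g hg)

theorem KPc_eq (h : KSame G x y) : KPc G x = KPc G y := by
  ext z
  exact ⟨fun hz => ⟨hz.1, ksame_trans hz.2 h⟩, fun hz => ⟨hz.1, ksame_trans hz.2 (ksame_symm h)⟩⟩

theorem mem_KPc (h : x ∈ KBB G) : x ∈ KPc G x := ⟨h, ksame_refl x⟩

theorem hasSpine_iff {S : Set α} : HasSpine S ↔ ∃ (C : Set α) (f : α → α), Spine S C f := by
  constructor
  · rintro ⟨C, h1, h2, f, h3, h4, h5⟩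
    exact ⟨C, f, h1, h2, h3, h4, h5⟩
  · rintro ⟨C, f, h⟩
    exact ⟨C, h.sub, h.chain, f, h.map, h.fix, h.anti⟩

theorem glue (Cs : α → Set α) (fs : α → α → α)
    (hsp : ∀ x ∈ KBB G, Spine (KPc G x) (Cs x) (fs x))
    (hinv : ∀ x ∈ KBB G, ∀ y ∈ KBB G, KSame G x y → Cs x = Cs y ∧ fs x = fs y) :
    KBase G {c | ∃ x ∈ KBB G, c ∈ Cs x} (fun x => fs x x) := by
  have hlt : ∀ c c' x y : α, c ∈ KPc G x → c' ∈ KPc G y → ∀ g ∈ G, x ∈ g.carrier →
      y ∉ g.carrier → c' < c := by
    intro c c' x y hc hc' g hg hx hy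
    have h1 : c ∈ g.carrier := (hc.2 g hg).2 hx
    have h2 : c' ∉ g.carrier := fun h' => hy ((hc'.2 g hg).1 h')
    exact (hc'.1.2 g hg).resolve_left h2 c h1
  refine ⟨?_, ?_, ?_, ?_, ?_, ?_⟩
  · rintro c ⟨x, hx, hc⟩
    exact ((hsp x hx).sub hc).1
  · rintro c ⟨x, hx, hc⟩ c' ⟨y, hy, hc'⟩ hne
    by_cases hxy : KSame G x y
    · rw [← (hinv x hx y hy hxy).1] at hc'
      exact (hsp x hx).chain hc hc' hne
    · unfold KSame at hxy
      push Not at hxy
      obtain ⟨g, hg, hg'⟩ := hxy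
      rcases hg' with ⟨h1, h2⟩ | ⟨h1, h2⟩
      · exact Or.inr (hlt c c' x y ((hsp x hx).sub hc) ((hsp y hy).sub hc') g hg h1 h2).le
      · exact Or.inl (hlt c' c y x ((hsp y hy).sub hc') ((hsp x hx).sub hc) g hg h2 h1).le
  · intro x hx
    exact ⟨x, hx, (hsp x hx).map x (mem_KPc hx)⟩
  · intro x hx
    exact ((hsp x hx).sub ((hsp x hx).map x (mem_KPc hx))).2
  · rintro c ⟨x, hx, hc⟩
    have hcP := (hsp x hx).sub hc
    show fs c c = c
    rw [(hinv c hcP.1 x hx hcP.2).2]
    exact (hsp x hx).fix c hc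
  · intro x hx y hy hxy
    change fs x x = fs y y at hxy
    have e1 : KSame G (fs x x) x := ((hsp x hx).sub ((hsp x hx).map x (mem_KPc hx))).2
    have e2 : KSame G (fs y y) y := ((hsp y hy).sub ((hsp y hy).map y (mem_KPc hy))).2
    have e3 : KSame G x y := by
      rw [hxy] at e1
      exact ksame_trans (ksame_symm e1) e2
    rw [← (hinv x hx y hy e3).2] at hxy
    exact (hsp x hx).anti x (mem_KPc hx) y ⟨hy, ksame_symm e3⟩ hxy

end same

theorem kstar_piece (h1 : S_KSTAR) {α : Type} [PartialOrder α] {κ : Cardinal.{0}} {E : Set α}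
    {G : Set (KGerm κ E)} (hG : KSel G) (x : α) : KStar κ (KPc G x) := by
  intro D hD hDl y hy
  exact h1 α κ E G hG D (fun d hd => (hD hd).1) hDl y hy.1
    (fun d hd => ksame_trans (hD hd).2 (ksame_symm hy.2))

theorem kpc (h1 : S_KSTAR) (h2 : S_KRED) : S_KPC := by
  classical
  intro α _ w hw κ hκ E hE G hG hst
  have hP : ∀ x, HasSpine (KPc G x) := fun x =>
    hst _ (fun y hy => hy.1.1) (kstar_piece h1 hG x)
  have hP' : ∀ x, ∃ p : Set α × (α → α), Spine (KPc G x) p.1 p.2 := by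
    intro x
    obtain ⟨C, f, h⟩ := hasSpine_iff.1 (hP x)
    exact ⟨(C, f), h⟩
  have hext : ∀ x₀ ∈ KBB G, Ext (KPc G x₀) E := by
    intro x₀ hx₀ C₀ f₀ h₀
    let sel : Set α → Set α × (α → α) := fun P =>
      if P = KPc G x₀ then (C₀, f₀) else
        if h : ∃ p : Set α × (α → α), Spine P p.1 p.2 then h.choose else (∅, id)
    have hsel : ∀ x, Spine (KPc G x) (sel (KPc G x)).1 (sel (KPc G x)).2 := by
      intro x
      simp only [sel]
      by_cases hx : KPc G x = KPc G x₀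
      · rw [if_pos hx, hx]
        exact h₀
      · rw [if_neg hx, dif_pos (hP' x)]
        exact (hP' x).choose_spec
    have hsel0 : sel (KPc G x₀) = (C₀, f₀) := if_pos rfl
    have hb := glue (G := G) (fun x => (sel (KPc G x)).1) (fun x => (sel (KPc G x)).2)
      (fun x _ => hsel x) (fun x _ y _ hxy => by
        simp only [KPc_eq hxy]
        exact ⟨trivial, trivial⟩)
    obtain ⟨f', hf', hff⟩ := h2 α w hw κ hκ E hE G hG _ _ hb
    refine ⟨_, f', hf', ?_, ?_⟩
    · ext c
      constructor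
      · rintro ⟨⟨x, hx, hc⟩, hc0⟩
        have hcx := (hsel x).sub hc
        have : KPc G x = KPc G x₀ := KPc_eq (ksame_trans (ksame_symm hcx.2) hc0.2)
        simp only [this, hsel0] at hc
        exact hc
      · intro hc
        refine ⟨⟨x₀, hx₀, ?_⟩, h₀.sub hc⟩
        simp only [hsel0]
        exact hc
    · intro x hx
      rw [hff x hx.1]
      simp only [KPc_eq hx.2, hsel0]
  refine ⟨hext, ?_⟩
  by_cases hne : (KBB G).Nonempty
  · obtain ⟨x₀, hx₀⟩ := hne
    obtain ⟨p, hp⟩ := hP' x₀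
    obtain ⟨C', f', h', -, -⟩ := hext x₀ hx₀ _ _ hp
    exact hasSpine_iff.2 ⟨C', f', h'⟩
  · rw [Set.not_nonempty_iff_eq_empty] at hne
    have hb : KBase G (∅ : Set α) id := by
      refine ⟨Set.empty_subset _, ?_, ?_, ?_, ?_, ?_⟩
      · intro a ha
        exact ha.elim
      · intro x hx
        rw [hne] at hx
        exact hx.elim
      · intro x hx
        exact ksame_refl x
      · intro c hc
        exact hc.elim
      · intro x hx
        rw [hne] at hx
        exact hx.elim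
    obtain ⟨f', hf', -⟩ := h2 α w hw κ hκ E hE G hG _ _ hb
    exact hasSpine_iff.2 ⟨∅, f', hf'⟩

end Pool.Agent.Y433.SP
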