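import Mathlib
import Pool.Agent.Y666.SP.Stm2
import Pool.Agent.Y365.SP.Main

/-!
# Project SP, part 2: the induction on the cardinal (helper433)
-/

set_option autoImplicit false

namespace Pool.Agent.Y433.SP

open Pool.Agent.Y666.SP Cardinal

theorem t_Q0 (h : S_ZAG) : S_Q0 := by
  intro α _ w hw E hE
  refine spine_of_sub E (h E fun x => ?_)
  have h1 : cd (Inc E (x : α)) < ℵ₀ := hE x x.2
  have h2 : (Inc E (x : α)).Finite := by
    rw [← Set.finite_coe_iff]
    exact Cardinal.lt_aleph0_iff_finite.1 h1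
  refine (h2.preimage (f := Subtype.val) Subtype.val_injective.injOn).subset ?_
  intro y hy
  exact ⟨y.2, hy.1, hy.2⟩

theorem t_QS (h1 : S_RED2) (h2 : S_KINC) : S_QS := by
  intro κ hκ hQ α _ w hw E hE
  refine h1 α w hw κ hκ E (fun x hx => Order.lt_succ_iff.1 (hE x hx)) ?_
  intro S hS hst hstU
  exact hQ α w hw S (h2 α w hw κ hκ S hst hstU).1

theorem qq_all (h1 : S_Q0) (h2 : S_QS) (h3 : S_QL) : ∀ κ : Cardinal.{0}, ℵ₀ ≤ κ → QQ κ := by
  intro κ
  induction κ using WellFoundedLT.induction with
  | ind κ ih =>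
    intro hκ
    rcases hκ.eq_or_lt with h | hlt
    · rw [← h]
      exact h1
    · by_cases hl : Order.IsSuccLimit κ
      · exact h3 κ hlt hl fun μ hμ hμκ => ih μ hμκ hμ
      · have hp : ¬ Order.IsSuccPrelimit κ := by
          intro hp
          apply hl
          refine ⟨?_, hp⟩
          intro hmin
          exact hmin.not_lt hlt
        unfold Order.IsSuccPrelimit at hp
        push Not at hp
        obtain ⟨μ, hμ⟩ := hp
        have hs : Order.succ μ = κ := hμ.succ_eq
        have hμ0 : ℵ₀ ≤ μ := by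
          by_contra hc
          push Not at hc
          have := Order.succ_le_of_lt hc
          rw [hs] at this
          exact absurd hlt (not_lt.2 this)
        rw [← hs]
        exact h2 μ hμ0 (ih μ hμ.lt hμ0)

theorem t_FULL (h1 : S_Q0) (h2 : S_QS) (h3 : S_QL) : S_FULL := by
  intro α _ w hw
  refine qq_all h1 h2 h3 (Order.succ (max ℵ₀ (Cardinal.mk α))) ?_ α w hw Set.univ ?_
  · exact (le_max_left _ _).trans (Order.le_succ _)
  · intro x _
    rw [Order.lt_succ_iff]
    exact (Cardinal.mk_set_le _).trans (le_max_right _ _)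

end Pool.Agent.Y433.SP
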